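import Pool.Agent.H65.PK.Targets

/-!
MP_58ae59_nt, board PKER, row TRC: number of eigenvalues equal to one.
-/

set_option autoImplicit false

open Module

namespace Pool.Agent.H79.PKER

open Pool.Agent.H65.PK

/-- the diagonal operator of a basis -/
noncomputable def dg {M : Type} [AddCommGroup M] [Module ℚ M] {d : ℕ} (b : Basis (Fin d) ℚ M)
    (ε : Fin d → ℕ) : M →ₗ[ℚ] M := b.constr ℚ (fun i => (ε i : ℚ) • b i)

theorem dg_trace {M : Type} [AddCommGroup M] [Module ℚ M] {d : ℕ} (b : Basis (Fin d) ℚ M)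
    (ε : Fin d → ℕ) : LinearMap.trace ℚ M (dg b ε) = ∑ i, (ε i : ℚ) := by
  rw [LinearMap.trace_eq_matrix_trace ℚ b, Matrix.trace]
  refine Finset.sum_congr rfl fun i _ => ?_
  rw [Matrix.diag_apply, LinearMap.toMatrix_apply, dg, Basis.constr_basis, map_smul,
    Finsupp.smul_apply, Basis.repr_self, Finsupp.single_eq_same, smul_eq_mul, mul_one]

theorem dg_coe {R : Type} [AddCommGroup R] [Module ℚ R] {P : Module.End ℚ R} {V : Submodule ℚ R}
    {d : ℕ} (b : Basis (Fin d) ℚ V) (ε : Fin d → ℕ)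
    (h : ∀ i, P (b i : R) = (ε i : ℚ) • (b i : R)) (v : V) : ((dg b ε v : V) : R) = P v := by
  have h1 : V.subtype ∘ₗ dg b ε = P ∘ₗ V.subtype := by
    refine b.ext fun i => ?_
    rw [LinearMap.comp_apply, LinearMap.comp_apply, dg, Basis.constr_basis, map_smul,
      Submodule.subtype_apply, h i]
  exact LinearMap.congr_fun h1 v

/-- TRC -/
theorem pf_TRC : T_TRC := by
  intro R _ _ _ P x V U b hb hx hVU hUV d bV bU ε ε' hV hU _ _
  obtain ⟨f, hf⟩ : ∃ f : V →ₗ[ℚ] U, ∀ v, ((f v : U) : R) = x v :=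
    ⟨x.restrict hVU, fun v => rfl⟩
  obtain ⟨g, hg⟩ : ∃ g : U →ₗ[ℚ] V, ∀ v, ((g v : V) : R) = x v :=
    ⟨x.restrict hUV, fun v => rfl⟩
  have hxx : ∀ v, x (x v) = b • v := fun v => by
    have := LinearMap.congr_fun hx v
    exact this
  have hgf : g ∘ₗ f = b • LinearMap.id := by
    ext v
    rw [LinearMap.comp_apply, hg, hf, hxx]
    rfl
  have hfg : f ∘ₗ g = b • LinearMap.id := by
    ext v
    rw [LinearMap.comp_apply, hf, hg, hxx]
    rfl
  have t1 : b * ∑ i, (ε i : ℚ) = LinearMap.trace ℚ U ((f ∘ₗ dg bV ε) ∘ₗ g) := by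
    have e1 := LinearMap.trace_comp_comm' f (dg bV ε ∘ₗ g)
    rw [LinearMap.comp_assoc, ← e1, LinearMap.comp_assoc, hgf, LinearMap.comp_smul,
      LinearMap.comp_id, map_smul, dg_trace, smul_eq_mul]
  have t2 : LinearMap.trace ℚ U ((dg bU ε' ∘ₗ f) ∘ₗ g) = b * ∑ i, (ε' i : ℚ) := by
    rw [LinearMap.comp_assoc, hfg, LinearMap.comp_smul, LinearMap.comp_id, map_smul, dg_trace,
      smul_eq_mul]
  have hd : (finrank ℚ U : ℚ) = d := by
    rw [Module.finrank_eq_card_basis bU, Fintype.card_fin]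
  constructor
  · intro hP
    have e2 : f ∘ₗ dg bV ε = dg bU ε' ∘ₗ f := by
      ext v
      rw [LinearMap.comp_apply, LinearMap.comp_apply, hf, dg_coe bV ε hV, dg_coe bU ε' hU, hf]
      exact (LinearMap.congr_fun hP v).symm
    rw [e2, t2] at t1
    have := mul_left_cancel₀ hb t1
    exact_mod_cast this
  · intro hP
    have e2 : f ∘ₗ dg bV ε = f - dg bU ε' ∘ₗ f := by
      ext v
      rw [LinearMap.comp_apply, hf, dg_coe bV ε hV, LinearMap.sub_apply, Submodule.coe_sub,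
        LinearMap.comp_apply, dg_coe bU ε' hU, hf]
      have h1 : P (x v) + x (P v) = x v := LinearMap.congr_fun hP v
      exact eq_sub_of_add_eq' h1
    rw [e2, LinearMap.sub_comp, map_sub, t2, hfg, map_smul, LinearMap.trace_id, smul_eq_mul, hd,
      ← mul_sub] at t1
    have := mul_left_cancel₀ hb t1
    have h3 : (∑ i, (ε i : ℚ)) + ∑ i, (ε' i : ℚ) = d := by linarith
    exact_mod_cast h3

end Pool.Agent.H79.PKER
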